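import Pool.Agent.RadPD.T7

set_option autoImplicit false

/-!
# Monochromatic triangles in two-colourings of the plane

Every two-colouring of the Euclidean plane, measurable or not, contains a monochromatic congruent
copy of every triangle which is not equilateral, degenerate triangles included. Moreover it contains
monochromatic equilateral triangles of all sides with at most one exception.
-/

namespace Pool.Agent.Results.MP_3d980f_co.EveryColouring

open Pool.Agent.MeasTri Pool.Agent.RadPD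

/-- If `w`, `s` have the same distances from `0` and from `v`, they are equal or mirror images in
the line through `0` and `v`. -/
theorem eq_or_mirror {v w s : ℂ} (h1 : ‖w‖ = ‖s‖) (h2 : ‖w - v‖ = ‖s - v‖) :
    w * (starRingEnd ℂ) v = s * (starRingEnd ℂ) v ∨
      w * (starRingEnd ℂ) v = (starRingEnd ℂ) s * v := by
  have e1 : w.re ^ 2 + w.im ^ 2 = s.re ^ 2 + s.im ^ 2 := by
    have := congrArg (fun t : ℝ => t ^ 2) h1
    simp only [← Complex.normSq_eq_norm_sq, Complex.normSq_apply] at this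
    linarith
  have e2 : (w.re - v.re) ^ 2 + (w.im - v.im) ^ 2 = (s.re - v.re) ^ 2 + (s.im - v.im) ^ 2 := by
    have := congrArg (fun t : ℝ => t ^ 2) h2
    simp only [← Complex.normSq_eq_norm_sq, Complex.normSq_apply, Complex.sub_re,
      Complex.sub_im] at this
    linarith
  have e3 : w.re * v.re + w.im * v.im = s.re * v.re + s.im * v.im := by nlinarith
  have e4 : (w.im * v.re - w.re * v.im) ^ 2 = (s.im * v.re - s.re * v.im) ^ 2 := by
    have h5 : (w.re ^ 2 + w.im ^ 2) * (v.re ^ 2 + v.im ^ 2) =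
        (s.re ^ 2 + s.im ^ 2) * (v.re ^ 2 + v.im ^ 2) := by rw [e1]
    have h6 : (w.re * v.re + w.im * v.im) ^ 2 = (s.re * v.re + s.im * v.im) ^ 2 := by rw [e3]
    linear_combination h5 - h6
  rcases sq_eq_sq_iff_eq_or_eq_neg.1 e4 with h | h
  · left
    apply Complex.ext
    · simp only [Complex.mul_re, Complex.conj_re, Complex.conj_im]
      linarith
    · simp only [Complex.mul_im, Complex.conj_re, Complex.conj_im]
      linarith
  · right
    apply Complex.ext
    · simp only [Complex.mul_re, Complex.conj_re, Complex.conj_im]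
      linarith
    · simp only [Complex.mul_im, Complex.conj_re, Complex.conj_im]
      linarith

/-- Two triangles of the complex plane with the same sides are congruent. -/
theorem exists_isometry {P Q R P' Q' R' : ℂ} (h0 : P ≠ Q) (h1 : ‖P' - Q'‖ = ‖P - Q‖)
    (h2 : ‖Q' - R'‖ = ‖Q - R‖) (h3 : ‖P' - R'‖ = ‖P - R‖) :
    ∃ σ : ℂ ≃ᵢ ℂ, σ P = P' ∧ σ Q = Q' ∧ σ R = R' := by
  have hu : Q - P ≠ 0 := sub_ne_zero.2 h0.symm
  have hn : ‖Q' - P'‖ = ‖Q - P‖ := by rw [norm_sub_rev, h1, norm_sub_rev]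
  have hv : Q' - P' ≠ 0 := by
    rw [← norm_ne_zero_iff, hn]
    exact norm_ne_zero_iff.2 hu
  have hcn : ‖(Q' - P') / (Q - P)‖ = 1 := by
    rw [norm_div, hn, div_self (norm_ne_zero_iff.2 hu)]
  obtain ⟨C, hC⟩ : ∃ C : Circle, (C : ℂ) = (Q' - P') / (Q - P) :=
    ⟨⟨_, mem_sphere_zero_iff_norm.2 hcn⟩, rfl⟩
  have hCQ : (C : ℂ) * (Q - P) = Q' - P' := by rw [hC]; field_simp
  have hCn : ‖(C : ℂ)‖ = 1 := by rw [hC]; exact hcn
  have g1 : ‖R' - P'‖ = ‖(C : ℂ) * (R - P)‖ := by
    rw [norm_mul, hCn, one_mul, norm_sub_rev, h3, norm_sub_rev]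
  have g2 : ‖R' - P' - (Q' - P')‖ = ‖(C : ℂ) * (R - P) - (Q' - P')‖ := by
    rw [← hCQ, ← mul_sub, norm_mul, hCn, one_mul, show R - P - (Q - P) = R - Q by ring, hCQ,
      show R' - P' - (Q' - P') = R' - Q' by ring, norm_sub_rev, h2, norm_sub_rev]
  have hcv : (starRingEnd ℂ) (Q' - P') ≠ 0 := (map_ne_zero _).2 hv
  rcases eq_or_mirror g1 g2 with h | h
  · refine ⟨(IsometryEquiv.subRight P).trans
      ((rotation C).toIsometryEquiv.trans (IsometryEquiv.addRight P')), ?_, ?_, ?_⟩
    · simp [rotation_apply]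
    · simp [rotation_apply, hCQ]
    · have := mul_right_cancel₀ hcv h
      simp [rotation_apply, ← this]
  · have hDn : ‖(Q' - P') / (starRingEnd ℂ) (Q' - P')‖ = 1 := by
      rw [norm_div, Complex.norm_conj, div_self (norm_ne_zero_iff.2 hv)]
    obtain ⟨D, hD⟩ : ∃ D : Circle, (D : ℂ) = (Q' - P') / (starRingEnd ℂ) (Q' - P') :=
      ⟨⟨_, mem_sphere_zero_iff_norm.2 hDn⟩, rfl⟩
    refine ⟨(IsometryEquiv.subRight P).trans
      ((rotation C).toIsometryEquiv.trans (Complex.conjLIE.toIsometryEquiv.trans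
        ((rotation D).toIsometryEquiv.trans (IsometryEquiv.addRight P')))), ?_, ?_, ?_⟩
    · simp [rotation_apply]
    · show (D : ℂ) * (starRingEnd ℂ) ((C : ℂ) * (Q - P)) + P' = Q'
      rw [hCQ, hD, div_mul_cancel₀ _ hcv]
      ring
    · show (D : ℂ) * (starRingEnd ℂ) ((C : ℂ) * (R - P)) + P' = R'
      rw [hD, div_mul_eq_mul_div, mul_comm (Q' - P'), ← h, mul_div_cancel_right₀ _ hcv]
      ring

/-- Every two-colouring of the plane contains a congruent copy of every non-equilateral triangle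
(three distinct points, collinear ones allowed) in one colour, and it contains monochromatic
equilateral triangles of all sides with at most one exception. -/
theorem result (f : EuclideanSpace ℝ (Fin 2) → Bool) :
    (∀ a b c : EuclideanSpace ℝ (Fin 2), a ≠ b → b ≠ c → a ≠ c →
      ¬ (dist a b = dist b c ∧ dist b c = dist c a) →
      ∃ σ : EuclideanSpace ℝ (Fin 2) → EuclideanSpace ℝ (Fin 2), Isometry σ ∧
        f (σ a) = f (σ b) ∧ f (σ b) = f (σ c)) ∧
    (∀ d e : ℝ, 0 < d → d < e →
      ∃ x y z : EuclideanSpace ℝ (Fin 2),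
        (dist x y = d ∧ dist y z = d ∧ dist z x = d ∨
          dist x y = e ∧ dist y z = e ∧ dist z x = e) ∧ f x = f y ∧ f y = f z) := by
  let e : ℂ ≃ₗᵢ[ℝ] EuclideanSpace ℝ (Fin 2) := Complex.orthonormalBasisOneI.repr
  have hd : ∀ x y : EuclideanSpace ℝ (Fin 2), ‖e.symm x - e.symm y‖ = dist x y := by
    intro x y
    rw [← dist_eq_norm, e.symm.dist_map]
  have hd' : ∀ P Q : ℂ, dist (e P) (e Q) = ‖P - Q‖ := by
    intro P Q
    rw [e.dist_map, dist_eq_norm]
  refine ⟨fun a b c hab hbc hac hne => ?_, fun d d' h0 hdd' => ?_⟩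
  · have hmain := main_all (fun z => f (e z))
      (P := e.symm a) (Q := e.symm b) (R := e.symm c)
      (fun h => hab (e.symm.injective h)) (fun h => hbc (e.symm.injective h))
      (fun h => hac (e.symm.injective h)) (by
        rw [hd, hd, hd, dist_comm a c]; exact hne)
    unfold Avoid at hmain
    push Not at hmain
    obtain ⟨P, Q, R, h1, h2, h3, h4, h5⟩ := hmain
    obtain ⟨σ, s1, s2, s3⟩ := exists_isometry (fun h => hab (e.symm.injective h)) h1 h2 h3
    refine ⟨fun x => e (σ (e.symm x)),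
      e.isometry.comp (σ.isometry.comp e.symm.isometry), ?_, ?_⟩
    · show f (e (σ (e.symm a))) = f (e (σ (e.symm b)))
      rw [s1, s2]; exact h4
    · show f (e (σ (e.symm b))) = f (e (σ (e.symm c)))
      rw [s2, s3]; exact h5
  · by_cases hE : Avoid (fun z => f (e z)) d d d
    · have hE' : ¬ Avoid (fun z => f (e z)) d' d' d' := fun h => two_sides_all h0 hdd' hE h
      unfold Avoid at hE'
      push Not at hE'
      obtain ⟨P, Q, R, h1, h2, h3, h4, h5⟩ := hE'
      exact ⟨e P, e Q, e R, Or.inr ⟨by rw [hd', h1], by rw [hd', h2],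
        by rw [dist_comm, hd', h3]⟩, h4, h5⟩
    · unfold Avoid at hE
      push Not at hE
      obtain ⟨P, Q, R, h1, h2, h3, h4, h5⟩ := hE
      exact ⟨e P, e Q, e R, Or.inl ⟨by rw [hd', h1], by rw [hd', h2],
        by rw [dist_comm, hd', h3]⟩, h4, h5⟩

end Pool.Agent.Results.MP_3d980f_co.EveryColouring
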